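import Mathlib
import Pool.Agent.Lib.MP_8790b5_co.Defs
import Pool.Agent.Lib.MP_8790b5_co.Zigzag

open Pool.Agent.Lib.MP_8790b5_co

/-- Q1 in full: in the plane and in every higher dimension the number of branching points of a
Steiner tree inside a terminal-free ball is unbounded. -/
theorem Pool.Agent.Results.MP_8790b5_co.BranchingAll.result :
    ∀ d : ℕ, 2 ≤ d → steinerBallBranching d = ⊤ :=
  fun _ hd => steinerBallBranching_all hd
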