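import Mathlib
import Pool.Agent.Lib.MP_8790b5_co.Defs
import Pool.Agent.Lib.MP_8790b5_co.Plane

open Pool.Agent.Lib.MP_8790b5_co

/-- Q2 in full: the largest normalised length of a Steiner tree inside a terminal-free ball is
`2π` in the plane and infinite in every dimension at least three. -/
theorem Pool.Agent.Results.MP_8790b5_co.Length.result :
    steinerBallLength 2 = ENNReal.ofReal (2 * Real.pi) ∧
      ∀ d : ℕ, 3 ≤ d → steinerBallLength d = ⊤ :=
  ⟨le_antisymm plane_upper plane_lower, fun _ hd => steinerBallLength_high hd⟩
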